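import Pool.Agent.Run7.h647.DM.RadZd

/-!
# The sites of a self-avoiding walk at the maximal distance from a given point

Self-avoiding walks on `ℤ^d`, every `d ≥ 1`.  Let `z` be a point of `ℤ^d`, for instance the starting
point `0`.  The number of the sites of the uniform `n`-step walk at which the maximal Euclidean
distance from `z` is attained has exponential tails, uniformly in `n` and `z`.  For `z = 0` this
concerns the maximal displacement `max_k |ω(k)|`.  Hence the number `c_n` of the `n`-step walks is, up
to a factor which depends only on `d`, the number of the pairs `(a, b)` of walks from `0` with `n`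
steps together which meet at `0` only, and which are contained in the ball about the last site of `a`
with `0` on its boundary.

Proof.  Let `v` be a site of maximal distance from `z`, and `κ` the coordinate direction in which
`v - z` is largest.  One of the two steps of the walk at `v` is perpendicular to `κ`.  It can be
replaced by three steps around a plaquette in the direction `κ`, since the two new sites are farther
from `z`.  All this can be done at the same time for all the sites `v` of a class (with `κ` and the
parity of the time fixed).  The old walk can be recovered: a site of the new walk of maximal distance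
from `z` is a new site, which gives (up to a bounded number of choices) one of the sites `v`; and a
site of the new walk is new if and only if it is farther from `z` than `v`.
-/

set_option autoImplicit false

namespace Pool.Agent.Results.MP_993f2f_pr.FarthestSites

/-- `v` and `w` are nearest neighbours in `ℤ^d` -/
def Nb {d : ℕ} (v w : Fin d → ℤ) : Prop := ∑ i, |w i - v i| = 1

/-- the `n`-step self-avoiding walks from `0` in `ℤ^d`, as lists of `n + 1` sites -/
def walks (d n : ℕ) : Set (List (Fin d → ℤ)) :=
  {l | l.length = n + 1 ∧ l.head? = some 0 ∧ l.IsChain Nb ∧ l.Nodup}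

/-- the squared Euclidean distance -/
def dist2 {d : ℕ} (v w : Fin d → ℤ) : ℤ := ∑ i, (v i - w i) ^ 2

/-- the sites of a walk at the maximal distance from `z` -/
def farthest {d : ℕ} (z : Fin d → ℤ) (l : List (Fin d → ℤ)) : Set (Fin d → ℤ) :=
  {v | v ∈ l ∧ ∀ a ∈ l, dist2 a z ≤ dist2 v z}

/-- the probability of an event under the uniform law on the `n`-step walks -/
noncomputable def prob (d n : ℕ) (E : List (Fin d → ℤ) → Prop) : ℝ :=
  (({l | l ∈ walks d n ∧ E l} : Set (List (Fin d → ℤ))).ncard : ℝ) / (walks d n).ncard

/-- the pairs of walks from `0` with `n` steps together which meet at `0` only, such that `0` is at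
the maximal distance from the last site of the first walk: `(k, a, b)`, where `a` has `k` steps and
`b` has `n - k` steps -/
def pairs (d n : ℕ) : Set (ℕ × List (Fin d → ℤ) × List (Fin d → ℤ)) :=
  {p | p.1 ≤ n ∧ p.2.1 ∈ walks d p.1 ∧ p.2.2 ∈ walks d (n - p.1) ∧
    (∀ v ∈ p.2.1, v ∈ p.2.2 → v = 0) ∧
    ∀ v, (v ∈ p.2.1 ∨ v ∈ p.2.2) → dist2 v (p.2.1.getLastD 0) ≤ dist2 0 (p.2.1.getLastD 0)}

section
open Run7.h738.EX Run7.h647.DM

theorem walks_eq {d : ℕ} (j : Fin d × Bool) (n : ℕ) :
    walks d n = (WF (Ls j) Set.univ 0 n : Set (List (Fin d → ℤ))) := by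
  ext l
  rw [Finset.mem_coe, mem_WF]
  constructor
  · rintro ⟨h1, h2, h3, h4⟩
    exact ⟨h1, h2, h3, h4, fun _ _ => Set.mem_univ _⟩
  · rintro ⟨h1, h2, h3, h4, -⟩
    exact ⟨h1, h2, h3, h4⟩

theorem walks_iff {d : ℕ} (j : Fin d × Bool) {n : ℕ} {l : List (Fin d → ℤ)} :
    l ∈ walks d n ↔ l ∈ WK (Ls j) Set.univ 0 n := by
  rw [walks_eq j, Finset.mem_coe, mem_WF]

theorem farthest_eq {d : ℕ} (z : Fin d → ℤ) (l : List (Fin d → ℤ)) :
    (farthest z l).ncard = (Rm sqd z l).card := by
  rw [← Set.ncard_coe_finset]
  congr 1
  ext v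
  rw [Finset.mem_coe, mem_Rm]
  exact Iff.rfl

theorem pairs_eq {d : ℕ} (j : Fin d × Bool) (n : ℕ) : pairs d n = PZ j n := by
  ext p
  unfold pairs PZ
  simp only [Set.mem_ofPred_eq, walks_iff j]
  exact Iff.rfl

end

/-- **The farthest sites.**  Let `d ≥ 1` and `n ≥ 0`.  (1) For every point `z` of `ℤ^d`, the uniform
`n`-step self-avoiding walk on `ℤ^d` has more than `630 d ^ 4 (1 + x)` sites at the maximal Euclidean
distance from `z` with probability at most `exp (-x)`, for all real `x ≥ 0`.  (2) `c_n`, the number
of the `n`-step walks, and the number `R_n` of the pairs `(a, b)` of walks from `0` with `n` steps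
together which meet at `0` only, and all sites of which are at distance at most `|a(k)|` from the last
site `a(k)` of `a`, satisfy `c_n ≤ R_n ≤ 1000 d ^ 4 c_n`. -/
theorem result (d n : ℕ) (hd : 1 ≤ d) :
    (∀ z : Fin d → ℤ, ∀ x : ℝ, 0 ≤ x →
      prob d n (fun l => 630 * (d : ℝ) ^ 4 * (1 + x) < (farthest z l).ncard) ≤ Real.exp (-x)) ∧
    (walks d n).ncard ≤ (pairs d n).ncard ∧
    (pairs d n).ncard ≤ 1000 * d ^ 4 * (walks d n).ncard := by
  set j : Fin d × Bool := (⟨0, hd⟩, true) with hj
  refine ⟨fun z x hx => ?_, ?_, ?_⟩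
  · have h := Run7.h647.DM.zd_expR 0 z j n hx
    have e : (({l | l ∈ walks d n ∧ 630 * (d : ℝ) ^ 4 * (1 + x) < (farthest z l).ncard} :
        Set (List (Fin d → ℤ))).ncard : ℝ) =
        ((Run7.h738.EX.WF (Run7.h647.DM.Ls j) Set.univ 0 n).filter
          (fun l => 630 * (d : ℝ) ^ 4 * (1 + x) <
            (Run7.h647.DM.Rm Run7.h647.DM.sqd z l).card)).card := by
      rw [← Set.ncard_coe_finset]
      congr 2
      ext l
      rw [Finset.mem_coe, Finset.mem_filter, ← Finset.mem_coe, ← walks_eq j]
      simp only [Set.mem_ofPred_eq, farthest_eq]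
    unfold prob
    rw [e, walks_eq j n, Set.ncard_coe_finset]
    exact div_le_of_le_mul₀ (Nat.cast_nonneg _) (Real.exp_pos _).le h
  · rw [walks_eq j, Set.ncard_coe_finset, pairs_eq j]
    exact Run7.h647.DM.PZ_ge j n
  · rw [walks_eq j, Set.ncard_coe_finset, pairs_eq j]
    exact (Run7.h647.DM.PZ_le j n).trans (Run7.h647.DM.zd_meanR 0 0 j n)

end Pool.Agent.Results.MP_993f2f_pr.FarthestSites
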